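import Pool.Agent.X162.GF

set_option autoImplicit false
set_option linter.unusedSectionVars false

/-! `S(7 n)` and `S(7 n + 5)` are divisible by `7`. -/

namespace Pool.Agent.Results.MP_ec0d67_nt.SevenCongruences

open Finset PowerSeries Filter Pool.Agent.X162.JTP
open scoped PowerSeries.WithPiTopology Topology

local instance : Fact (Nat.Prime 7) := ⟨by norm_num⟩

section
variable [TopologicalSpace (ZMod 7)] [DiscreteTopology (ZMod 7)]

theorem two_cancel (x : (ZMod 7)⟦X⟧) (h : 2 * x = 0) : x = 0 := by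
  have h4 : (8 : (ZMod 7)⟦X⟧) = 1 := by
    have : ((8 : ZMod 7)) = 1 := by decide
    have h := congrArg (C : ZMod 7 →+* (ZMod 7)⟦X⟧) this
    rwa [map_ofNat, map_one] at h
  calc x = 8 * x := by rw [h4, one_mul]
    _ = 4 * (2 * x) := by ring
    _ = 0 := by rw [h, mul_zero]

theorem seven_eq_zero : (7 : (ZMod 7)⟦X⟧) = 0 := by
  have : ((7 : ZMod 7)) = 0 := by decide
  have h := congrArg (C : ZMod 7 →+* (ZMod 7)⟦X⟧) this
  rwa [map_ofNat, map_zero] at h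

theorem D_pow7 (f : (ZMod 7)⟦X⟧) : D (f ^ 7) = 0 := by
  have : f ^ 7 = f * (f * (f * (f * (f * (f * f))))) := by ring
  rw [this]
  simp only [D_mul]
  linear_combination (f ^ 6 * D f) * seven_eq_zero

theorem coeff_pow7 (f : (ZMod 7)⟦X⟧) (n : ℕ) (hn : (n : ZMod 7) ≠ 0) : coeff n (f ^ 7) = 0 := by
  have h := congrArg (coeff n) (D_pow7 f)
  rw [coeff_D, map_zero] at h
  exact (mul_eq_zero.1 h).resolve_left hn

theorem coeff_Th (b : ℕ) (h : coeff b (Th : (ZMod 7)⟦X⟧) ≠ 0) :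
    (b : ZMod 7) = 0 ∨ (b : ZMod 7) = 1 ∨ (b : ZMod 7) = 5 := by
  by_contra hb
  apply h
  have h1 := (WithPiTopology.hasSum_iff_hasSum_coeff _).1 (hs_Th (K := ZMod 7)) b
  refine h1.unique ?_
  have e : (fun l : ℤ => coeff b (mon (3 * l + 1) (3 * l * l + 2 * l) : (ZMod 7)⟦X⟧)) =
      fun _ => 0 := by
    funext l
    rw [coeff_mon]
    split_ifs with hl
    · by_contra hne
      apply hb
      have h0 : 0 ≤ 3 * l * l + 2 * l := (abs_nonneg l).trans (le_sq1' l)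
      have h2 : (b : ℤ) = 3 * l * l + 2 * l := by omega
      have h3 : ((b : ℤ) : ZMod 7) = ((3 * l * l + 2 * l : ℤ) : ZMod 7) := by rw [h2]
      push_cast at h3 hne
      rw [h3]
      have key : ∀ x : ZMod 7, 3 * x + 1 ≠ 0 → (3 * x * x + 2 * x = 0 ∨ 3 * x * x + 2 * x = 1 ∨
          3 * x * x + 2 * x = 5) := by decide
      exact key _ hne
    · rfl
  rw [e]
  exact hasSum_zero

theorem J_sym (n a : ℕ) (h : coeff a (J (-X : (ZMod 7)⟦X⟧) (n : ℤ) + J (-X) (-((n + 1 : ℕ) : ℤ))) ≠ 0) :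
    (a : ZMod 7) = 0 ∨ (a : ZMod 7) = 1 ∨ (a : ZMod 7) = 3 := by
  have e : J (-X : (ZMod 7)⟦X⟧) (n : ℤ) + J (-X) (-((n + 1 : ℕ) : ℤ)) =
      C ((-1) ^ n * (2 * (n : ZMod 7) + 1) * (-1) ^ (n + n.choose 2)) * X ^ (n + n.choose 2) := by
    rw [J_nat, J_neg, ch, neg_pow (X : (ZMod 7)⟦X⟧)]
    simp only [map_mul, map_pow, map_neg, map_one, map_add, map_natCast, map_ofNat]
    push_cast
    ring
  rw [e, coeff_C_mul, coeff_X_pow] at h
  split_ifs at h with ha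
  · have hne : 2 * (n : ZMod 7) + 1 ≠ 0 := by
      intro h0; apply h; rw [h0]; ring
    have h2 : (2 * (n.choose 2) : ℤ) = n * n - n := two_choose n
    have h3 : (a : ZMod 7) = 4 * ((n : ZMod 7) * n + n) := by
      have h4 : (2 * a : ℤ) = n * n + n := by
        rw [ha]; push_cast; linarith
      have h5 : ((2 * a : ℤ) : ZMod 7) = ((n * n + n : ℤ) : ZMod 7) := by rw [h4]
      push_cast at h5
      rw [← h5]
      have : (8 : ZMod 7) = 1 := by decide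
      linear_combination (-(a : ZMod 7)) * this
    rw [h3]
    have key : ∀ x : ZMod 7, 2 * x + 1 ≠ 0 → (4 * (x * x + x) = 0 ∨ 4 * (x * x + x) = 1 ∨
          4 * (x * x + x) = 3) := by decide
    exact key _ hne
  · simp at h

/-- the reflection `j ↦ -1 - j` -/
def refl1 : ℤ ≃ ℤ where
  toFun j := -1 - j
  invFun j := -1 - j
  left_inv j := by ring
  right_inv j := by ring

theorem coeff_cube (a : ℕ) (h : coeff a (EE (-X : (ZMod 7)⟦X⟧) ^ 3) ≠ 0) :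
    (a : ZMod 7) = 0 ∨ (a : ZMod 7) = 1 ∨ (a : ZMod 7) = 3 := by
  by_contra hb
  apply h
  have h1 := jacobi (K := ZMod 7) (q := -X) (by simp)
  have h2 : HasSum (J (-X : (ZMod 7)⟦X⟧) ∘ refl1) (EE (-X) ^ 3) := refl1.hasSum_iff.2 h1
  have h3 := (WithPiTopology.hasSum_iff_hasSum_coeff _).1 (h1.add h2) a
  have h4 : coeff a (EE (-X : (ZMod 7)⟦X⟧) ^ 3 + EE (-X) ^ 3) = 0 := by
    refine h3.unique ?_
    have e : (fun j : ℤ => coeff a (J (-X : (ZMod 7)⟦X⟧) j + (J (-X) ∘ refl1) j)) =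
        fun _ => 0 := by
      funext j
      by_contra hne
      apply hb
      rcases le_or_gt 0 j with hj | hj
      · obtain ⟨n, rfl⟩ := Int.eq_ofNat_of_zero_le hj
        refine J_sym n a ?_
        have : refl1 (n : ℤ) = -((n + 1 : ℕ) : ℤ) := by
          change -1 - (n : ℤ) = _; push_cast; ring
        simpa only [Function.comp, this] using hne
      · obtain ⟨n, rfl⟩ : ∃ n : ℕ, j = -((n + 1 : ℕ) : ℤ) := ⟨(-j - 1).toNat, by omega⟩
        refine J_sym n a ?_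
        have : refl1 (-((n + 1 : ℕ) : ℤ)) = (n : ℤ) := by
          change -1 - (-((n + 1 : ℕ) : ℤ)) = _; push_cast; ring
        rw [add_comm]
        simpa only [Function.comp, this] using hne
    rw [e]
    exact hasSum_zero
  rw [← two_mul, ← (map_ofNat (C : ZMod 7 →+* (ZMod 7)⟦X⟧) 2), coeff_C_mul] at h4
  exact (mul_eq_zero.1 h4).resolve_left (by decide)

theorem coeff_Y (N : ℕ) (hN : (N : ZMod 7) = 0 ∨ (N : ZMod 7) = 5) :
    coeff N (D (EE (-X : (ZMod 7)⟦X⟧) ^ 3) * Th) = 0 := by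
  rw [coeff_mul]
  refine sum_eq_zero fun p hp => ?_
  rw [coeff_D]
  by_cases h1 : coeff p.1 (EE (-X : (ZMod 7)⟦X⟧) ^ 3) = 0
  · rw [h1]; ring
  by_cases h2 : coeff p.2 (Th : (ZMod 7)⟦X⟧) = 0
  · rw [h2]; ring
  have h3 : ((p.1 : ℕ) : ZMod 7) + (p.2 : ℕ) = N := by
    rw [← mem_antidiagonal.1 hp]; push_cast; rfl
  have key : ∀ x y : ZMod 7, (x = 0 ∨ x = 1 ∨ x = 3) → (y = 0 ∨ y = 1 ∨ y = 5) →
      (x + y = 0 ∨ x + y = 5) → x = 0 := by decide
  rw [key _ _ (coeff_cube _ h1) (coeff_Th _ h2) (by rw [h3]; exact hN)]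
  ring

theorem coeff_FS (N : ℕ) (hN : (N : ZMod 7) = 0 ∨ (N : ZMod 7) = 5) :
    coeff N (FS : (ZMod 7)⟦X⟧) = 0 := by
  have h1 := FS_eq (K := ZMod 7)
  have h2 := theta (K := ZMod 7) two_cancel
  obtain ⟨v, hv⟩ := (isUnit_EE (K := ZMod 7) (cX 2 (by norm_num)))
  have h3 : D (EE (-X : (ZMod 7)⟦X⟧) ^ 3) = 3 * EE (-X) ^ 2 * D (EE (-X)) := by
    have : EE (-X : (ZMod 7)⟦X⟧) ^ 3 = EE (-X) * (EE (-X) * EE (-X)) := by ring
    rw [this]
    simp only [D_mul]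
    ring
  have h4 : (3 : (ZMod 7)⟦X⟧) * FS * (v : (ZMod 7)⟦X⟧) ^ 7 =
      D (EE (-X : (ZMod 7)⟦X⟧) ^ 3) * Th := by
    rw [h3, hv]
    linear_combination (3 * EE (X ^ 2) ^ 5) * h1 - 3 * D (EE (-X)) * h2
  have h5 : (FS : (ZMod 7)⟦X⟧) = 5 * ((D (EE (-X : (ZMod 7)⟦X⟧) ^ 3) * Th) *
      ((v⁻¹ : ((ZMod 7)⟦X⟧)ˣ) : (ZMod 7)⟦X⟧) ^ 7) := by
    rw [← h4]
    have h6 : (v : (ZMod 7)⟦X⟧) ^ 7 * ((v⁻¹ : ((ZMod 7)⟦X⟧)ˣ) : (ZMod 7)⟦X⟧) ^ 7 = 1 := by
      rw [← mul_pow, Units.mul_inv, one_pow]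
    linear_combination (-15 * FS) * h6 - 2 * FS * seven_eq_zero
  rw [h5, ← (map_ofNat (C : ZMod 7 →+* (ZMod 7)⟦X⟧) 5), coeff_C_mul, coeff_mul]
  rw [sum_eq_zero, mul_zero]
  intro p hp
  by_cases h6 : ((p.2 : ℕ) : ZMod 7) = 0
  · have h7 : ((p.1 : ℕ) : ZMod 7) = N := by
      rw [← mem_antidiagonal.1 hp]; push_cast; rw [h6, add_zero]
    rw [coeff_Y p.1 (by rw [h7]; exact hN), zero_mul]
  · rw [coeff_pow7 _ _ h6, mul_zero]

end

/-- **Result.** For all `n`, `7` divides `S(7 n)` and `S(7 n + 5)`. -/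
theorem result (n : ℕ) : (7 : ℤ) ∣ S (7 * n) ∧ (7 : ℤ) ∣ S (7 * n + 5) := by
  let _ : TopologicalSpace (ZMod 7) := ⊥
  have _ : DiscreteTopology (ZMod 7) := ⟨rfl⟩
  have h7 : (7 : ZMod 7) = 0 := by decide
  constructor
  · have h := coeff_FS (7 * n) (Or.inl (by push_cast; rw [h7, zero_mul]))
    rw [FS, coeff_mk] at h
    exact (ZMod.intCast_zmod_eq_zero_iff_dvd _ 7).1 h
  · have h := coeff_FS (7 * n + 5) (Or.inr (by push_cast; rw [h7, zero_mul, zero_add]))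
    rw [FS, coeff_mk] at h
    exact (ZMod.intCast_zmod_eq_zero_iff_dvd _ 7).1 h

end Pool.Agent.Results.MP_ec0d67_nt.SevenCongruences
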